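import Pool.Agent.H61.NVK.TargetsE2
import Pool.Agent.H61.CM4B.WP2

/-! Row E_BAI: the average of the central value of a lattice. -/

set_option autoImplicit false

open MeasureTheory Set Filter NumberField NumberField.InfinitePlace NumberField.Units
  NumberField.Units.dirichletUnitTheorem Pool.Agent.H65.CM4 Pool.Agent.H61.CM4
  Pool.Agent.H61.NVK
open scoped Real nonZeroDivisors

namespace Pool.Agent.H51.NVE_BAI

theorem rpow_int : IntegrableOn (fun t : ℝ => t ^ (-2 : ℝ)) (Ioi 1) ∧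
    ∫ t in Ioi (1 : ℝ), t ^ (-2 : ℝ) = 1 := by
  refine ⟨integrableOn_Ioi_rpow_of_lt (by norm_num) one_pos, ?_⟩
  rw [integral_Ioi_rpow_of_lt (by norm_num) one_pos]
  norm_num

theorem avg_int {ι : Type} (R : Finset ι) (F : ι → ℝ → ℝ) (G : ℝ → ℝ) (K : ℝ)
    (hF : ∀ i ∈ R, IntegrableOn (F i) (Ioi 1)) (hG : IntegrableOn G (Ioi 1))
    (hb : ∀ t, 1 < t → |(1 / (R.card : ℝ)) * ∑ i ∈ R, F i t - G t| ≤ K * t ^ (-2 : ℝ)) :
    |(1 / (R.card : ℝ)) * ∑ i ∈ R, (∫ t in Ioi (1 : ℝ), F i t) - ∫ t in Ioi (1 : ℝ), G t| ≤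
      K := by
  have h1 : (1 / (R.card : ℝ)) * ∑ i ∈ R, (∫ t in Ioi (1 : ℝ), F i t) -
      ∫ t in Ioi (1 : ℝ), G t =
      ∫ t in Ioi (1 : ℝ), ((1 / (R.card : ℝ)) * ∑ i ∈ R, F i t - G t) := by
    rw [integral_sub _ hG, integral_const_mul, integral_finsetSum R hF]
    exact (integrable_finsetSum R hF).const_mul _
  rw [h1]
  have h2 : IntegrableOn (fun t : ℝ => K * t ^ (-2 : ℝ)) (Ioi 1) := rpow_int.1.const_mul K
  have h3 := norm_integral_le_of_norm_le (μ := volume.restrict (Ioi (1 : ℝ)))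
    (f := fun t => (1 / (R.card : ℝ)) * ∑ i ∈ R, F i t - G t) h2
    ((ae_restrict_iff' measurableSet_Ioi).2 (Eventually.of_forall fun t ht => hb t ht))
  rw [integral_const_mul, rpow_int.2, mul_one] at h3
  exact h3

section

variable {k : Type} [Field k] [NumberField k] [IsTotallyReal k]

theorem z0_int (hZ : T_Z0I) (hF : T_FFE) (I J : Pool.Agent.H25.HK.FI k) (y : Pl k → ℝ)
    (hI : I ≠ 0) (hJ : J ≠ 0) (hy : ∀ v, 0 < y v) :
    IntegrableOn (fun t => z0 I J y t - vR k) (Ioi 1) := by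
  have hP : 0 < ∏ v, y v := Finset.prod_pos fun v _ => hy v
  have hs : 0 < Real.sqrt (∏ v, y v) := Real.sqrt_pos.2 hP
  obtain ⟨s, hsd⟩ : ∃ s, Real.sqrt (∏ v, y v) = s := ⟨_, rfl⟩
  rw [hsd] at hs
  have h1 : IntegrableOn (fun t => fF I (s⁻¹ * t) - vR k) (Ioi 1) := by
    have h2 := (integrableOn_Ioi_comp_mul_left_iff (fun t => fF I t - vR k) 1
      (inv_pos.2 hs)).2 ((hF k I hI).2.1 (s⁻¹ * 1) (by positivity)).1
    exact h2
  have h3 : IntegrableOn (fun t => (fF J (s * t) - vR k) / (s * t)) (Ioi 1) := by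
    have h2 := (integrableOn_Ioi_comp_mul_left_iff (fun t => (fF J t - vR k) / t) 1
      hs).2 ((hF k J hJ).2.1 (s * 1) (by positivity)).2.1
    exact h2
  have h4 : IntegrableOn (fun t => (fF I (s⁻¹ * t) - vR k) +
      s * s / cF I * ((fF J (s * t) - vR k) / (s * t))) (Ioi 1) := h1.add (h3.const_mul _)
  refine h4.congr_fun ?_ measurableSet_Ioi
  intro t ht
  have ht0 : (0 : ℝ) < t := lt_trans one_pos ht
  show fF I (s⁻¹ * t) - vR k + s * s / cF I * ((fF J (s * t) - vR k) / (s * t)) =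
    z0 I J y t - vR k
  rw [hZ k I J y t hI hJ hy ht0, hsd]
  have e1 : s⁻¹ * t = t / s := by
    field_simp
  have e2 : s * t = t * s := mul_comm _ _
  rw [e1, e2]
  have e3 : s * s / cF I * ((fF J (t * s) - vR k) / (t * s)) =
      s / (cF I * t) * (fF J (t * s) - vR k) := by
    rcases eq_or_ne (cF I) 0 with h0 | h0
    · rw [h0]; simp
    · field_simp
  rw [e3]
  ring

theorem mult_one (v : Pl k) : (v.mult : ℝ) = 1 := by
  unfold InfinitePlace.mult
  rw [if_pos (IsTotallyReal.isReal v)]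
  simp

theorem eF_eq (hYC : Pool.Agent.H25.HK.T_YC) (I : Pool.Agent.H25.HK.FI k) (y : Pl k → ℝ)
    (hy : ∀ v, 0 < y v) (t : ℝ) (ht : 0 < t) (z : logSpace k) :
    eF I y (Pool.Agent.H25.HK.yc k (Real.log t) z) = Real.sqrt (∏ v, y v) / (t * cF I) := by
  have hP : 0 < ∏ v, y v := Finset.prod_pos fun v _ => hy v
  have h1 : ∑ v : Pl k, Pool.Agent.H25.HK.yc k (Real.log t) z v = 2 * Real.log t := by
    rw [← (hYC k).1 (Real.log t) z]
    exact Finset.sum_congr rfl fun v _ => by rw [mult_one, one_mul]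
  have h2 : ∑ v : Pl k, Real.log (y v) = Real.log (∏ v, y v) :=
    (Real.log_prod (fun v _ => (hy v).ne')).symm
  unfold eF
  rw [Finset.sum_sub_distrib, h1, h2]
  have h3 : -(2 * Real.log t - Real.log (∏ v, y v)) / 2 =
      Real.log (Real.sqrt (∏ v, y v)) - Real.log t := by
    rw [Real.log_sqrt hP.le]
    ring
  rw [h3, Real.exp_sub, Real.exp_log (Real.sqrt_pos.2 hP), Real.exp_log ht, div_div]

open scoped Classical in
theorem Z0_intF (hCT : Pool.Agent.H25.HK.T_CT) (hYC : Pool.Agent.H25.HK.T_YC)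
    (hFD : Pool.Agent.H25.HK.T_FD) (I J : Pool.Agent.H25.HK.FI k) (y : Pl k → ℝ)
    (hI : I ≠ 0) (hJ : J ≠ 0) (τ : ℝ) :
    IntegrableOn (fun z => Z0 I J y (Pool.Agent.H25.HK.yc k τ z)) (Pool.Agent.H25.HK.Fd k) := by
  obtain ⟨hmeas, ⟨B, hB⟩, -⟩ := hFD k
  have hyc : Continuous (fun z : logSpace k => Pool.Agent.H25.HK.yc k τ z) :=
    (hYC k).2.2.2.2.1.comp (Continuous.prodMk_right τ)
  have hyv : ∀ v, Continuous (fun z : logSpace k => Pool.Agent.H25.HK.yc k τ z v) := fun v =>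
    (continuous_apply v).comp hyc
  have h1 : Continuous (fun z : logSpace k =>
      tF I (fun v => Pool.Agent.H25.HK.yc k τ z v - Real.log (y v))) := by
    refine (hCT k I hI).comp ?_
    exact continuous_pi fun v => (hyv v).sub continuous_const
  have h2 : Continuous (fun z : logSpace k =>
      tF J (fun v => Pool.Agent.H25.HK.yc k τ z v + Real.log (y v))) := by
    refine (hCT k J hJ).comp ?_
    exact continuous_pi fun v => (hyv v).add continuous_const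
  have h3 : Continuous (fun z : logSpace k => eF I y (Pool.Agent.H25.HK.yc k τ z)) := by
    unfold eF
    refine Continuous.div_const (Real.continuous_exp.comp ?_) _
    refine Continuous.div_const (Continuous.neg ?_) _
    exact continuous_finsetSum _ fun v _ => (hyv v).sub continuous_const
  have h4 : Continuous (fun z : logSpace k => Z0 I J y (Pool.Agent.H25.HK.yc k τ z)) := by
    unfold Z0
    exact h1.add (h3.mul (h2.sub continuous_const))
  exact (h4.continuousOn.integrableOn_compact (Pool.Agent.H61.CM4B.bx2_compact k B)).mono_set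
    (Pool.Agent.H61.CM4B.fd2_sub k B hB)

open scoped Classical in
/-- the difference of the averages at `t` -/
theorem pw (hCT : Pool.Agent.H25.HK.T_CT) (hYC : Pool.Agent.H25.HK.T_YC)
    (hFD : Pool.Agent.H25.HK.T_FD) {ι : Type} (R : Finset ι)
    (I J : Pool.Agent.H25.HK.FI k) (X : ι → Pl k → ℝ) (y : Pl k → ℝ) (e W S t : ℝ)
    (hI : I ≠ 0) (hJ : J ≠ 0) (he : 0 ≤ e) (hW : 0 ≤ W)
    (hT : ∀ j ∈ R, IntegrableOn (fun z => T2 I J (X j) y
      (Pool.Agent.H25.HK.yc k (Real.log t) z)) (Pool.Agent.H25.HK.Fd k))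
    (hE : ∀ z : logSpace k, eF I y (Pool.Agent.H25.HK.yc k (Real.log t) z) = e)
    (hA : ∀ z ∈ Pool.Agent.H25.HK.Fd k, |(1 / (R.card : ℝ)) *
      ∑ j ∈ R, T2 I J (X j) y (Pool.Agent.H25.HK.yc k (Real.log t) z) -
        Z0 I J y (Pool.Agent.H25.HK.yc k (Real.log t) z)| ≤
      eF I y (Pool.Agent.H25.HK.yc k (Real.log t) z) * W *
        SS (dF I) J y (Pool.Agent.H25.HK.yc k (Real.log t) z))
    (hS : ∀ z ∈ Pool.Agent.H25.HK.Fd k,
      SS (dF I) J y (Pool.Agent.H25.HK.yc k (Real.log t) z) ≤ S) :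
    |(1 / (R.card : ℝ)) * ∑ j ∈ R, (∫ z in Pool.Agent.H25.HK.Fd k, T2 I J (X j) y
        (Pool.Agent.H25.HK.yc k (Real.log t) z)) - z0 I J y t| ≤ vR k * (e * W * S) := by
  have hZ := Z0_intF hCT hYC hFD I J y hI hJ (Real.log t)
  obtain ⟨hmeas, -, -, hfin, -⟩ := hFD k
  have h1 : (1 / (R.card : ℝ)) * ∑ j ∈ R, (∫ z in Pool.Agent.H25.HK.Fd k, T2 I J (X j) y
        (Pool.Agent.H25.HK.yc k (Real.log t) z)) - z0 I J y t =
      ∫ z in Pool.Agent.H25.HK.Fd k, ((1 / (R.card : ℝ)) * ∑ j ∈ R, T2 I J (X j) y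
        (Pool.Agent.H25.HK.yc k (Real.log t) z) -
          Z0 I J y (Pool.Agent.H25.HK.yc k (Real.log t) z)) := by
    unfold z0
    rw [integral_sub _ hZ, integral_const_mul, integral_finsetSum R hT]
    exact (integrable_finsetSum R hT).const_mul _
  rw [h1]
  have h2 := norm_setIntegral_le_of_norm_le_const (μ := volume)
    (s := Pool.Agent.H25.HK.Fd k) (C := e * W * S)
    (f := fun z => (1 / (R.card : ℝ)) * ∑ j ∈ R, T2 I J (X j) y
        (Pool.Agent.H25.HK.yc k (Real.log t) z) -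
          Z0 I J y (Pool.Agent.H25.HK.yc k (Real.log t) z)) hfin
    (by
      intro z hz
      refine (hA z hz).trans ?_
      rw [hE z]
      exact mul_le_mul_of_nonneg_left (hS z hz) (mul_nonneg he hW))
  rw [Real.norm_eq_abs] at h2
  refine h2.trans (le_of_eq ?_)
  unfold vR
  rw [mul_comm]

theorem avg_lin {ι : Type} (R : Finset ι) (hR : (R.card : ℝ) ≠ 0) (a b : ι → ℝ) (A B d v : ℝ) :
    (1 / (R.card : ℝ)) * ∑ i ∈ R, (a i + d * b i - v - d * v) - (A + d * B - v - d * v) =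
      ((1 / (R.card : ℝ)) * ∑ i ∈ R, a i - A) + d * ((1 / (R.card : ℝ)) * ∑ i ∈ R, b i - B) := by
  rw [Finset.sum_sub_distrib, Finset.sum_sub_distrib, Finset.sum_add_distrib, ← Finset.mul_sum,
    Finset.sum_const, Finset.sum_const, nsmul_eq_mul, nsmul_eq_mul]
  field_simp
  ring

theorem fin_bound (A1 A2 vr s c1 c2 c3 W C D dkr X P : ℝ) (j : ℕ) (hvr : 0 ≤ vr) (hs : 0 ≤ s)
    (hsP : s ≤ 1 + P) (hP : 0 ≤ P) (hc2 : 1 ≤ c2) (hc1 : 0 < c1) (hc3 : c3 * c1 = 1)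
    (hW : 0 ≤ W) (hC : 0 ≤ C) (hD : D = c1 * c2) (hdk : 0 ≤ dkr) (hX : 1 ≤ X)
    (hDX : D ≤ dkr * X ^ 2)
    (h1 : |A1| ≤ vr * (s / c2 * W * (C * D ^ j)))
    (h2 : |A2| ≤ vr * (s / c3 * W * (C * D ^ j))) :
    |A1 + D⁻¹ * A2| ≤ (2 * (vr * C * dkr ^ j) + 1) * (X + P) ^ (2 * j + 1) * W := by
  have hc20 : 0 < c2 := by linarith
  have hD0 : 0 < D := by
    rw [hD]
    positivity
  have hc3i : c3 = c1⁻¹ := by
    field_simp
    linarith
  have h3 : D⁻¹ * |A2| ≤ vr * (s / c2 * W * (C * D ^ j)) := by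
    have h4 : D⁻¹ * |A2| ≤ D⁻¹ * (vr * (s / c3 * W * (C * D ^ j))) :=
      mul_le_mul_of_nonneg_left h2 (inv_nonneg.2 hD0.le)
    refine h4.trans (le_of_eq ?_)
    have h5 : D⁻¹ * (s / c3) = s / c2 := by
      rw [hD, hc3i]
      field_simp
    rw [← h5]
    ring
  have h6 : |A1 + D⁻¹ * A2| ≤ |A1| + D⁻¹ * |A2| := by
    refine (abs_add_le _ _).trans (le_of_eq ?_)
    rw [abs_mul, abs_of_pos (inv_pos.2 hD0)]
  have h7 : s / c2 ≤ X + P := by
    refine (div_le_self hs hc2).trans ?_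
    linarith
  have h8 : D ^ j ≤ dkr ^ j * (X + P) ^ (2 * j) := by
    have h9 : D ≤ dkr * (X + P) ^ 2 := by
      refine hDX.trans (mul_le_mul_of_nonneg_left ?_ hdk)
      exact pow_le_pow_left₀ (by linarith) (by linarith) 2
    have h10 := pow_le_pow_left₀ hD0.le h9 j
    rwa [mul_pow, ← pow_mul] at h10
  have hXP : 0 ≤ X + P := by linarith
  have h11 : vr * (s / c2 * W * (C * D ^ j)) ≤
      vr * ((X + P) * W * (C * (dkr ^ j * (X + P) ^ (2 * j)))) := by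
    apply mul_le_mul_of_nonneg_left _ hvr
    apply mul_le_mul
    · exact mul_le_mul_of_nonneg_right h7 hW
    · exact mul_le_mul_of_nonneg_left h8 hC
    · positivity
    · exact mul_nonneg hXP hW
  have h12 : |A1 + D⁻¹ * A2| ≤ 2 * (vr * ((X + P) * W * (C * (dkr ^ j * (X + P) ^ (2 * j))))) := by
    linarith
  refine h12.trans ?_
  have h13 : 2 * (vr * ((X + P) * W * (C * (dkr ^ j * (X + P) ^ (2 * j))))) =
      2 * (vr * C * dkr ^ j) * ((X + P) ^ (2 * j + 1) * W) := by ring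
  rw [h13]
  have h14 : 0 ≤ (X + P) ^ (2 * j + 1) * W := mul_nonneg (pow_nonneg hXP _) hW
  nlinarith

theorem avg_sub {ι : Type} (R : Finset ι) (hR : (R.card : ℝ) ≠ 0) (f : ι → ℝ) (c g : ℝ) :
    (1 / (R.card : ℝ)) * ∑ i ∈ R, (f i - c) - (g - c) = (1 / (R.card : ℝ)) * ∑ i ∈ R, f i - g := by
  rw [Finset.sum_sub_distrib, Finset.sum_const, nsmul_eq_mul, mul_sub]
  have h : 1 / (R.card : ℝ) * (R.card * c) = c := by
    field_simp
  rw [h]
  ring

theorem dn_mono {q : ℕ} {I : Pool.Agent.H25.HK.FI k} (h : Dn 1 I) : Dn q I := by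
  intro x hx
  obtain ⟨y, hy⟩ := h x hx
  refine ⟨(q : 𝓞 k) * y, ?_⟩
  have h1 : (((q : 𝓞 k) * y : 𝓞 k) : k) = (q : k) * (y : k) := by
    rw [RingOfIntegers.coe_eq_algebraMap, map_mul, map_natCast]
  rw [h1, hy, Nat.cast_one, one_mul]

end

open scoped Classical in
theorem pf_BAI (hLAM : T_LAM) (hT2E : T_T2E) (hFRI : T_FRI) (hLIX : T_LIX) (hTHA : T_THA)
    (hSSB : T_SSB) (hZ0I : T_Z0I) (hFFE : T_FFE) (hCT2 : T_CT2)
    (hCT : Pool.Agent.H25.HK.T_CT) : T_BAI := by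
  intro k _ _ _ η hη
  have hYC : Pool.Agent.H25.HK.T_YC := Pool.Agent.H87.HK.yc_main
  have hFD : Pool.Agent.H25.HK.T_FD := Pool.Agent.H66.HK.fd
  obtain ⟨C, j, hC, hSS⟩ := hSSB k η hη
  have hvR : 0 ≤ vR k := measureReal_nonneg
  refine ⟨2 * (vR k * C * (dk k : ℝ) ^ j) + 1, 2 * j + 1, by positivity, ?_⟩
  intro a B h R β y hyη hRp
  have hy : ∀ v, 0 < y v := fun v => lt_of_lt_of_le hη (hyη v)
  have hP : 0 < ∏ v, y v := Finset.prod_pos fun v _ => hy v
  obtain ⟨P, hPd⟩ : ∃ P, ∏ v, y v = P := ⟨_, rfl⟩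
  have hPp : 0 < P := hPd ▸ hP
  obtain ⟨hI1, hI2, hI3, hI4, hI5, hI6, hIall, hn1, hn2, hDm, hd1, hd2, hd3, hd4⟩ := hFRI k a B
  obtain ⟨hix, hix0, hna, hnB⟩ := hLIX k a B
  set L : La k := Lb (a : Ideal (𝓞 k)) B with hL
  set Ja := iF (a : Ideal (𝓞 k)) with hJa
  set JaB := iF ((a : Ideal (𝓞 k)) * (B : Ideal (𝓞 k))) with hJaB
  obtain ⟨-, hc1, -, hc1', hc1''⟩ := hIall Ja hI1
  obtain ⟨hdd2, hc2, hn2', hc2', hc2''⟩ := hIall JaB hI2
  obtain ⟨-, hc3, -, -, -⟩ := hIall (dF Ja) hI3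
  obtain ⟨hdd1, -⟩ := hIall Ja hI1
  have hdk : 0 < dk k := Nat.pos_of_ne_zero (by
    unfold dk
    exact Int.natAbs_ne_zero.2 (NumberField.discr_ne_zero k))
  have hdg : (dg k : ℝ) ≠ 0 := by
    unfold dg
    exact_mod_cast (Module.finrank_pos (R := ℚ) (M := k)).ne'
  have hD1 : 1 ≤ Dm L := Nat.mul_pos hdk (Nat.pos_of_ne_zero hix0)
  have hDR : (1 : ℝ) ≤ Dm L := by exact_mod_cast hD1
  have hD0 : (0 : ℝ) < Dm L := by linarith
  have hRne : R.Nonempty := by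
    obtain ⟨r, hr, -⟩ := hRp.ex 0 (Submodule.zero_mem _)
    exact ⟨r, hr⟩
  have hRc : (R.card : ℝ) ≠ 0 := by
    exact_mod_cast hRne.card_pos.ne'
  obtain ⟨W, hW⟩ : ∃ W, EE (k := k) (∏ v, (2 * y v)) (nm (h : Ideal (𝓞 k))) = W := ⟨_, rfl⟩
  have hW0 : 0 ≤ W := by
    rw [← hW]
    exact (Real.exp_pos _).le
  rw [hW]
  -- one part
  have part : ∀ (I J : Pool.Agent.H25.HK.FI k) (F : 𝓞 k → ℝ → ℝ), I ≠ 0 → J ≠ 0 → 0 < cF I →
      I = iF (B : Ideal (𝓞 k)) * J → Dn (Dm L) (dF I) → Dn (Dm L) J →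
      (∀ i ∈ R, IntegrableOn (fun t => F i t - vR k) (Ioi 1)) →
      (∀ i ∈ R, ∀ t : ℝ, 1 < t → IntegrableOn (fun z => T2 I J (fun v => (β v + ev i v) / 2) y
        (Pool.Agent.H25.HK.yc k (Real.log t) z)) (Pool.Agent.H25.HK.Fd k) ∧
        F i t = ∫ z in Pool.Agent.H25.HK.Fd k, T2 I J (fun v => (β v + ev i v) / 2) y
          (Pool.Agent.H25.HK.yc k (Real.log t) z)) →
      |(1 / (R.card : ℝ)) * ∑ i ∈ R, (∫ t in Ioi (1 : ℝ), (F i t - vR k)) -
        ∫ t in Ioi (1 : ℝ), (z0 I J y t - vR k)| ≤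
        vR k * (Real.sqrt P / cF I * W * (C * (Dm L : ℝ) ^ j)) := by
    intro I J F hI hJ hcI hIJ hdI hdJ hFi hFt
    refine avg_int R (fun i t => F i t - vR k) (fun t => z0 I J y t - vR k) _ hFi
      (z0_int hZ0I hFFE I J y hI hJ hy) ?_
    intro t ht
    have ht0 : 0 < t := lt_trans one_pos ht
    rw [avg_sub R hRc (fun i => F i t) (vR k) (z0 I J y t),
      Finset.sum_congr rfl fun i hi => (hFt i hi t ht).2]
    have h1 := pw hCT hYC hFD R I J (fun i v => (β v + ev i v) / 2) y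
      (Real.sqrt P / (t * cF I)) W (C * (Dm L : ℝ) ^ j * t ^ (-2 : ℝ)) t hI hJ (by positivity) hW0
      (fun i hi => (hFt i hi t ht).1)
      (fun z => by rw [eF_eq hYC I y hy t ht0 z, hPd])
      (fun z _ => by
        have := hTHA k I J B h R β y (Pool.Agent.H25.HK.yc k (Real.log t) z) hI hJ hy hIJ hRp
        rw [hW] at this
        exact this)
      (fun z hz => hSS (dF I) J (Dm L) y t z hz hD1 hdI hdJ hyη ht.le)
    refine h1.trans ?_
    have h2 : Real.sqrt P / (t * cF I) ≤ Real.sqrt P / cF I := by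
      apply div_le_div_of_nonneg_left (Real.sqrt_nonneg _) hcI
      nlinarith
    have h3 : 0 ≤ t ^ (-2 : ℝ) := Real.rpow_nonneg ht0.le _
    calc vR k * (Real.sqrt P / (t * cF I) * W * (C * (Dm L : ℝ) ^ j * t ^ (-2 : ℝ)))
        ≤ vR k * (Real.sqrt P / cF I * W * (C * (Dm L : ℝ) ^ j * t ^ (-2 : ℝ))) := by
          gcongr
      _ = vR k * (Real.sqrt P / cF I * W * (C * (Dm L : ℝ) ^ j)) * t ^ (-2 : ℝ) := by ring
  have p1 := part JaB Ja (fun i t => f2 L (fun v => (β v + ev i v) / 2) y t) hI2 hI1 hc2 hI5 hd4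
    (dn_mono hd1) (fun i _ => (hLAM k L _ y hix0 hy).1) (by
      intro i _ t ht
      have e1 : ∀ z : logSpace k, th2 L (fun v => (β v + ev i v) / 2) y
          (Pool.Agent.H25.HK.yc k (Real.log t) z) =
          T2 JaB Ja (fun v => (β v + ev i v) / 2) y (Pool.Agent.H25.HK.yc k (Real.log t) z) :=
        fun z => (hT2E k a B _ y _ hy).1
      refine ⟨?_, ?_⟩
      · have h1 := Pool.Agent.H61.CM4B.th2_int k hCT2 hYC hFD L (fun v => (β v + ev i v) / 2) y hy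
          (Real.log t)
        simpa only [e1] using h1
      · show f2 L _ y t = _
        unfold f2
        simp only [e1])
  have p2 := part (dF Ja) (dF JaB)
    (fun i t => f2 (du L) (fun v => (β v + ev i v) / 2) y (((Dm L : ℝ) ^ dg k)⁻¹ * t)) hI3 hI4 hc3
    hI6 (by rw [hdd1]; exact dn_mono hd1) hd4 (fun i _ => (hLAM k L _ y hix0 hy).2.1) (by
      intro i _ t ht
      have ht0 : 0 < t := lt_trans one_pos ht
      have e0 : ∀ z : logSpace k, Pool.Agent.H25.HK.yc k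
          (Real.log (((Dm L : ℝ) ^ dg k)⁻¹ * t)) z =
          fun v => Pool.Agent.H25.HK.yc k (Real.log t) z v - 2 * Real.log (Dm L) := by
        intro z
        funext v
        have hlog : Real.log (((Dm L : ℝ) ^ dg k)⁻¹ * t) =
            Real.log t - dg k * Real.log (Dm L) := by
          rw [Real.log_mul (by positivity) ht0.ne', Real.log_inv, Real.log_pow]
          ring
        rw [(hYC k).2.2.2.1 (Real.log (((Dm L : ℝ) ^ dg k)⁻¹ * t)) z v,
          (hYC k).2.2.2.1 (Real.log t) z v, hlog]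
        have hfr : (Module.finrank ℚ k : ℝ) = dg k := rfl
        rw [hfr]
        field_simp
        ring
      have e1 : ∀ z : logSpace k, th2 (du L) (fun v => (β v + ev i v) / 2) y
          (Pool.Agent.H25.HK.yc k (Real.log (((Dm L : ℝ) ^ dg k)⁻¹ * t)) z) =
          T2 (dF Ja) (dF JaB) (fun v => (β v + ev i v) / 2) y
            (Pool.Agent.H25.HK.yc k (Real.log t) z) := by
        intro z
        rw [e0 z]
        exact (hT2E k a B _ y _ hy).2
      refine ⟨?_, ?_⟩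
      · have h1 := Pool.Agent.H61.CM4B.th2_int k hCT2 hYC hFD (du L)
          (fun v => (β v + ev i v) / 2) y hy (Real.log (((Dm L : ℝ) ^ dg k)⁻¹ * t))
        simpa only [e1] using h1
      · show f2 (du L) _ y _ = _
        unfold f2
        simp only [e1])
  have hdkR : (1 : ℝ) ≤ dk k := by exact_mod_cast hdk
  have hX1 : 1 ≤ nm (a : Ideal (𝓞 k)) * nm (B : Ideal (𝓞 k)) := one_le_mul_of_one_le_of_one_le hna hnB
  have hcB : 1 ≤ cF JaB := by
    rw [hc2', hn2]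
    have h1 : 1 ≤ Real.sqrt (dk k) := by
      rw [Real.one_le_sqrt]
      exact hdkR
    exact one_le_mul_of_one_le_of_one_le h1 hX1
  have hsP : Real.sqrt P ≤ 1 + P := by
    rw [Real.sqrt_le_left (by linarith)]
    nlinarith
  have hDX : (Dm L : ℝ) ≤ (dk k : ℝ) * (nm (a : Ideal (𝓞 k)) * nm (B : Ideal (𝓞 k))) ^ 2 := by
    have h1 : (Dm L : ℝ) = (dk k : ℝ) * (ix L : ℝ) := by
      unfold Dm
      push_cast
      ring
    rw [h1, hix]
    apply mul_le_mul_of_nonneg_left _ (by linarith)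
    rw [mul_pow]
    apply mul_le_mul_of_nonneg_left _ (by positivity)
    nlinarith
  have hfin := fin_bound _ _ (vR k) (Real.sqrt P) (cF Ja) (cF JaB) (cF (dF Ja)) W C (Dm L) (dk k)
    (nm (a : Ideal (𝓞 k)) * nm (B : Ideal (𝓞 k))) P j hvR (Real.sqrt_nonneg _) hsP hPp.le hcB hc1
    hc1'' hW0 hC.le hDm (by linarith) hX1 hDX p1 p2
  have hlin := avg_lin R hRc
    (fun i => ∫ t in Ioi (1 : ℝ), (f2 L (fun v => (β v + ev i v) / 2) y t - vR k))
    (fun i => ∫ t in Ioi (1 : ℝ), (f2 (du L) (fun v => (β v + ev i v) / 2) y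
      (((Dm L : ℝ) ^ dg k)⁻¹ * t) - vR k))
    (∫ t in Ioi (1 : ℝ), (z0 JaB Ja y t - vR k))
    (∫ t in Ioi (1 : ℝ), (z0 (dF Ja) (dF JaB) y t - vR k)) ((Dm L : ℝ)⁻¹) (vR k)
  rw [← hlin] at hfin
  rw [hPd]
  exact hfin

end Pool.Agent.H51.NVE_BAI
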